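import Pool.Agent.Work.MP_ad2f8c_co.Main

namespace Pool.Agent.Results.MP_ad2f8c_co.ClearVisibility

open Pool.Agent.Work.MP_ad2f8c_co

/-- In every dimension `d`, a compact connected set `E` in `ℝ^d` is starshaped if and only if it
has property `C_{d+1}`: any `d + 1` LNC points of `E` are clearly visible from a common point of
`E`. -/
theorem result (d : ℕ) (E : Set (EuclideanSpace ℝ (Fin d))) (hE : IsCompact E)
    (hconn : IsConnected E) : PropC E (d + 1) ↔ IsStarshaped E := by
  constructor
  · intro h
    apply starshaped_of_propC hE hconn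
    rw [finrank_euclideanSpace_fin]
    exact h
  · rintro ⟨y, hy, hsee⟩ x _
    exact ⟨y, hy, fun i => ⟨1, one_pos, fun z hz => hsee z hz.2⟩⟩

end Pool.Agent.Results.MP_ad2f8c_co.ClearVisibility
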